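import Pool.Agent.Lib.MP_2e8272_nt.Full.CertA
import Pool.Agent.Lib.MP_2e8272_nt.Full.CertB
import Pool.Agent.Lib.MP_2e8272_nt.Full.TailMain

namespace Pool.Agent.Results.MP_2e8272_nt.FullAnswer

open Pool.Agent.Lib.MP_2e8272_nt

/-- `M n` = number of distinct multinomial coefficients of order `n`, `pSharp n` = number of
partitions of `n` with every part at most 7 or divisible by 3.  The inequality asked for in Q1
holds for every `n`. -/
theorem result : ∀ n : ℕ, M n ≤ pSharp n := by
  intro n
  rcases lt_or_ge n 301 with h | h
  · exact Full.BaseA.main n h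
  rcases lt_or_ge n 8813 with h' | h'
  · exact Full.BaseB.main n h h'
  · exact Full.TailT.main n h'

end Pool.Agent.Results.MP_2e8272_nt.FullAnswer
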