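import Pool.Agent.Lib.MP_2e8272_nt.Proof

namespace Pool.Agent.Results.MP_2e8272_nt.LogOrder

open Pool.Agent.Lib.MP_2e8272_nt

/-- The order of magnitude of the logarithm of the number `M n` of distinct multinomial
coefficients of order `n` is `√(n / log n)`. -/
theorem result : ∀ n : ℕ, 20000 ≤ n →
    Real.exp (2 / 5 * Real.sqrt (n / Real.log n)) ≤ M n ∧
    (M n : ℝ) ≤ Real.exp (224 * Real.sqrt (n / Real.log n)) :=
  fun n hn => ⟨main.2.2.2 n hn, main.2.2.1 n (le_trans (by norm_num) hn)⟩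

end Pool.Agent.Results.MP_2e8272_nt.LogOrder
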